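import Pool.Agent.W680.WH.Stm

/-!
Project WHH (MP_af71ff_an), part LOW.
-/

set_option autoImplicit false

open scoped ComplexConjugate InnerProductSpace
open ContinuousLinearMap Filter

namespace Pool.Agent.W479.WH

open Pool.Agent.W680.WH

theorem low (hOM : S_OM) (hOPA : S_OPA) (hOPC : S_OPC) : S_LOW := by
  intro M hMZ
  obtain ⟨_, _, om3, _, om5⟩ := hOM
  have hZe : ∀ n : ℤ, Z (eb n) = eb (n + 1) := hOPA.2.2.1.1
  have c1 : ∀ n m : ℤ, co (eb n) m = if m = n then 1 else 0 := hOPC.1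
  have c2 : ∀ f (n : ℤ), co (Z f) n = co f (n - 1) := hOPC.2.1
  have cn : ∀ f : E, ‖f‖ ^ 2 = ∑' n, om n * ‖co f n‖ ^ 2 := hOPC.2.2.2.2.2.2.1
  have cs : ∀ f : E, Summable fun n => om n * ‖co f n‖ ^ 2 := hOPC.2.2.2.2.2.2.2.1
  obtain ⟨f, hf⟩ : ∃ f, f = (M : E →L[ℂ] E) (eb 0) := ⟨_, rfl⟩
  rw [← hf]
  have h1 : ∀ N : ℕ, (M : E →L[ℂ] E) (eb N) = (Z ^ N) f := by
    intro N
    induction N with
    | zero => rw [pow_zero, hf]; rfl
    | succ N ih =>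
      have e1 : (M : E →L[ℂ] E) (Z (eb N)) = Z ((M : E →L[ℂ] E) (eb N)) :=
        DFunLike.congr_fun hMZ (eb N)
      have e2 : ((N + 1 : ℕ) : ℤ) = (N : ℤ) + 1 := by push_cast; ring
      rw [e2, ← hZe, e1, ih, pow_succ']
      rfl
  have h2 : ∀ (N : ℕ) (n : ℤ), co ((Z ^ N) f) n = co f (n - N) := by
    intro N
    induction N with
    | zero => intro n; rw [pow_zero]; simp
    | succ N ih =>
      intro n
      rw [pow_succ']
      change co (Z ((Z ^ N) f)) n = _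
      rw [c2, ih]
      congr 1
      push_cast; ring
  have h0 : ∀ N : ℕ, ‖eb (N : ℤ)‖ ^ 2 = om N := by
    intro N
    rw [cn, tsum_eq_single (N : ℤ)]
    · rw [c1, if_pos rfl]; simp
    · intro m hm
      rw [c1, if_neg hm]; simp
  have h3 : ∀ N : ℕ, 1 ≤ ‖((M⁻¹ : (E →L[ℂ] E)ˣ) : E →L[ℂ] E)‖ ^ 2 *
      ∑' n : ℤ, om (n + N) / om N * ‖co f n‖ ^ 2 := by
    intro N
    have e1 : ‖(Z ^ N) f‖ ^ 2 = ∑' n : ℤ, om (n + N) * ‖co f n‖ ^ 2 := by
      rw [cn, ← (Equiv.addRight (N : ℤ)).tsum_eq]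
      refine tsum_congr fun n => ?_
      rw [h2]
      simp
    have e2 : eb (N : ℤ) = ((M⁻¹ : (E →L[ℂ] E)ˣ) : E →L[ℂ] E) ((Z ^ N) f) := by
      rw [← h1]
      have : ((M⁻¹ : (E →L[ℂ] E)ˣ) : E →L[ℂ] E) * (M : E →L[ℂ] E) = 1 := Units.inv_mul M
      exact (DFunLike.congr_fun this (eb N)).symm
    have e3 : ‖eb (N : ℤ)‖ ≤ ‖((M⁻¹ : (E →L[ℂ] E)ˣ) : E →L[ℂ] E)‖ * ‖(Z ^ N) f‖ := by
      rw [e2]
      exact ContinuousLinearMap.le_opNorm _ _
    have e4 : om N ≤ ‖((M⁻¹ : (E →L[ℂ] E)ˣ) : E →L[ℂ] E)‖ ^ 2 *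
        ∑' n : ℤ, om (n + N) * ‖co f n‖ ^ 2 := by
      rw [← h0, ← e1, ← mul_pow]
      exact pow_le_pow_left₀ (norm_nonneg _) e3 2
    have e5 : ∑' n : ℤ, om (n + N) / om N * ‖co f n‖ ^ 2 =
        (∑' n : ℤ, om (n + N) * ‖co f n‖ ^ 2) / om N := by
      rw [← tsum_div_const]
      exact tsum_congr fun n => by ring
    rw [e5, ← mul_div_assoc, le_div_iff₀ (om_pos _), one_mul]
    exact e4
  have h4 : Tendsto (fun N : ℕ => ∑' n : ℤ, om (n + N) / om N * ‖co f n‖ ^ 2) atTop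
      (nhds (∑' n, ‖co f n‖ ^ 2)) := by
    refine tendsto_tsum_of_dominated_convergence (cs f) (fun n => ?_)
      (Filter.Eventually.of_forall fun N n => ?_)
    · have := (om5 n).mul_const (‖co f n‖ ^ 2)
      rwa [one_mul] at this
    · have hp := om_pos (N : ℤ)
      have hq := om_pos (n + (N : ℤ))
      rw [Real.norm_of_nonneg (by positivity)]
      refine mul_le_mul_of_nonneg_right ?_ (by positivity)
      rw [div_le_iff₀ hp]
      exact om3 n N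
  exact ge_of_tendsto' (h4.const_mul _) h3

end Pool.Agent.W479.WH
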